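import Mathlib

set_option autoImplicit false

namespace Pool.Agent.MP_9c356a_lc

/-- The morphism a ↦ bab, b ↦ ab, with a = 0 and b = 1. -/
def hb : Fin 2 → List (Fin 2) := ![[1, 0, 1], [0, 1]]

/-- Its extension to words. -/
def phi (u : List (Fin 2)) : List (Fin 2) := u.flatMap hb

lemma phi_append (u v : List (Fin 2)) : phi (u ++ v) = phi u ++ phi v := by
  simp [phi]

lemma phi_nil : phi [] = [] := rfl

lemma phi_cons_zero (u : List (Fin 2)) : phi (0 :: u) = 1 :: 0 :: 1 :: phi u := by
  simp [phi, hb]

lemma phi_cons_one (u : List (Fin 2)) : phi (1 :: u) = 0 :: 1 :: phi u := by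
  simp [phi, hb]

lemma phi_injective : Function.Injective phi := by
  intro u
  induction u with
  | nil =>
    intro v hv
    cases v with
    | nil => rfl
    | cons y v =>
      fin_cases y
      · simp [phi_nil, phi_cons_zero] at hv
      · simp [phi_nil, phi_cons_one] at hv
  | cons x u ih =>
    intro v hv
    cases v with
    | nil =>
      fin_cases x
      · simp [phi_nil, phi_cons_zero] at hv
      · simp [phi_nil, phi_cons_one] at hv
    | cons y v =>
      fin_cases x <;> fin_cases y
      · simp only [Fin.zero_eta, phi_cons_zero, List.cons.injEq, true_and] at hv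
        rw [ih hv]
      · simp [phi_cons_zero, phi_cons_one] at hv
      · simp [phi_cons_zero, phi_cons_one] at hv
      · simp only [Fin.mk_one, phi_cons_one, List.cons.injEq, true_and] at hv
        rw [ih hv]

lemma iter_append (k : ℕ) (u v : List (Fin 2)) :
    phi^[k] (u ++ v) = phi^[k] u ++ phi^[k] v := by
  induction k generalizing u v with
  | zero => rfl
  | succ k ih => simp only [Function.iterate_succ_apply, phi_append, ih]

lemma iter_nil (k : ℕ) : phi^[k] [] = [] := by
  induction k with
  | zero => rfl
  | succ k ih => simp only [Function.iterate_succ_apply, phi_nil, ih]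

lemma iter_flatten (k : ℕ) (Ls : List (List (Fin 2))) :
    phi^[k] Ls.flatten = (Ls.map (phi^[k])).flatten := by
  induction Ls with
  | nil => simp [iter_nil]
  | cons x Ls ih => simp [iter_append, ih]

/-- The system satisfies the formula (2,3,2,2,1) with cut 3. -/
lemma depth_three (m : ℕ) (hm : 3 ≤ m) :
    phi^[m] [0] = (([2, 3, 2, 2, 1] : List ℕ).map (fun i => phi^[m - i] [0])).flatten := by
  obtain ⟨k, rfl⟩ := Nat.exists_eq_add_of_le' hm
  have h3 : phi^[3] [0] =
      (([2, 3, 2, 2, 1] : List ℕ).map (fun i => phi^[3 - i] [0])).flatten := by decide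
  rw [Function.iterate_add_apply, h3, iter_flatten, List.map_map]
  refine congrArg List.flatten ?_
  apply List.map_congr_left
  intro i hi
  have hi3 : i ≤ 3 := by
    simp only [List.mem_cons, List.not_mem_nil, or_false] at hi
    omega
  simp only [Function.comp]
  rw [← Function.iterate_add_apply]
  congr 1
  omega

lemma le_foldr_max (L : List ℕ) (i : ℕ) (hi : i ∈ L) : i ≤ L.foldr max 0 := by
  induction L with
  | nil => simp at hi
  | cons x L ih =>
    simp only [List.mem_cons] at hi
    simp only [List.foldr_cons]
    rcases hi with rfl | hi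
    · exact le_max_left _ _
    · exact le_trans (ih hi) (le_max_right _ _)

/-- No formula of depth at most 2 holds, whatever the cut. -/
lemma not_depth_two (L : List ℕ) (N : ℕ) (hpos : ∀ i ∈ L, 0 < i) (hle : ∀ i ∈ L, i ≤ 2)
    (hm : ∀ m : ℕ, N ≤ m →
      phi^[m] [0] = (L.map (fun i => phi^[m - i] [0])).flatten) : False := by
  have h := hm (N + 2) (by omega)
  have h2 : (L.map (fun i => phi^[N + 2 - i] [0])).flatten
      = phi^[N] (L.map (fun i => phi^[2 - i] [0])).flatten := by
    rw [iter_flatten, List.map_map]
    congr 1
    apply List.map_congr_left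
    intro i hi
    have := hle i hi
    simp only [Function.comp]
    rw [← Function.iterate_add_apply]
    congr 1
    omega
  rw [h2, Function.iterate_add_apply] at h
  have h3 := (phi_injective.iterate N) h
  have e2 : phi^[2] [0] = [0, 1, 1, 0, 1, 0, 1] := by decide
  have e1 : phi^[1] [0] = [1, 0, 1] := by decide
  have e0 : phi^[0] [0] = [0] := by decide
  rw [e2] at h3
  rcases L with _ | ⟨i, L⟩
  · simp at h3
  · have hi1 := hpos i (by simp)
    have hi2 := hle i (by simp)
    rcases L with _ | ⟨j, L⟩
    · interval_cases i
      · simp only [List.map_cons, Nat.add_one_sub_one, e1] at h3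
        simp at h3
      · simp at h3
    · have hj1 := hpos j (by simp)
      have hj2 := hle j (by simp)
      interval_cases i <;> interval_cases j <;>
        simp only [List.map_cons, Nat.add_one_sub_one, e1, Nat.sub_self, e0] at h3 <;>
        simp at h3

end Pool.Agent.MP_9c356a_lc
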