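import Mathlib

/-! A family of primitive D0L systems with quadratic depth: words over the natural numbers. -/

set_option autoImplicit false

namespace Pool.Agent.MP_9c356a_lc.Quad

/-- parameters: `n` letters, `a + b = 1`, `n - a` even -/
structure Par where
  n : ℕ
  a : ℕ
  b : ℕ
  c : ℕ
  q : ℕ
  hab : a + b = 1
  hp : n = 2 * c + 2 + a
  hq : n = q + b

variable (P : Par)

def W : List ℕ := List.range' P.a (2 * P.c + 2) ++ [P.b]
def g (i : ℕ) : List ℕ := if i + 1 = P.n then W P else [i + 1]
def G (u : List ℕ) : List ℕ := u.flatMap (g P)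
def x (K : ℕ) : List ℕ := (G P)^[K] [0]
def U (s : ℕ) : ℕ → List ℕ
  | 0 => []
  | k + 1 => U s k ++ x P (s + k)
def om (k : ℕ) : List ℕ := x P k ++ x P (k + 1)

lemma G_app (u v : List ℕ) : G P (u ++ v) = G P u ++ G P v := List.flatMap_append

lemma G_cons (z : ℕ) (v : List ℕ) : G P (z :: v) = g P z ++ G P v := List.flatMap_cons

lemma x_succ (K : ℕ) : x P (K + 1) = G P (x P K) := Function.iterate_succ_apply' _ _ _

lemma om_succ (k : ℕ) : om P (k + 1) = G P (om P k) := by
  rw [om, om, G_app, ← x_succ, ← x_succ]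

lemma x_lt (K : ℕ) (h : K < P.n) : x P K = [K] := by
  induction K with
  | zero => rfl
  | succ K ih => rw [x_succ, ih (by omega), G_cons, g, if_neg (by omega)]; rfl

lemma G_U (s k : ℕ) : G P (U P s k) = U P (s + 1) k := by
  induction k with
  | zero => rfl
  | succ k ih => rw [U, U, G_app, ih, ← x_succ, Nat.add_right_comm]

lemma U_range (s k : ℕ) (h : s + k ≤ P.n) : U P s k = List.range' s k := by
  induction k with
  | zero => rfl
  | succ k ih => rw [U, ih (by omega), x_lt P _ (by omega), List.range'_concat, one_mul]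

lemma U_cons (s k : ℕ) : U P s (k + 1) = x P s ++ U P (s + 1) k := by
  induction k with
  | zero => simp [U]
  | succ k ih => rw [U, ih, U, List.append_assoc, show s + (k + 1) = s + 1 + k by omega]

lemma x_n : x P P.n = W P := by
  have h1 := P.hp
  obtain ⟨m, hm⟩ : ∃ m, P.n = m + 1 := ⟨P.n - 1, by omega⟩
  rw [hm, x_succ, x_lt P m (by omega), G_cons, g, if_pos hm.symm]
  exact List.append_nil _

lemma x_rec (l : ℕ) : x P (P.n + l) = U P (l + P.a) (2 * P.c + 2) ++ x P (l + P.b) := by
  have h1 := P.hp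
  have h2 := P.hab
  induction l with
  | zero =>
    rw [add_zero, zero_add, zero_add, x_n, U_range P _ _ (by omega), x_lt P _ (by omega), W]
  | succ l ih =>
    rw [← add_assoc, x_succ, ih, G_app, G_U, ← x_succ, Nat.add_right_comm l 1,
      Nat.add_right_comm l 1]

/-! ### the formula of depth `p q + 1` -/

/-- products of the words with index below `e` -/
def M (e : ℕ) (u : List ℕ) : Prop := ∃ L : List ℕ, (∀ i ∈ L, i < e) ∧ u = (L.map (om P)).flatten

lemma M_app {e : ℕ} {u v : List ℕ} (hu : M P e u) (hv : M P e v) : M P e (u ++ v) := by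
  obtain ⟨L, h1, rfl⟩ := hu
  obtain ⟨L', h2, rfl⟩ := hv
  refine ⟨L ++ L', fun i hi => (List.mem_append.1 hi).elim (h1 i) (h2 i), by simp⟩

lemma M_om {e i : ℕ} (h : i < e) : M P e (om P i) := ⟨[i], by simpa, by simp⟩

lemma M_U (e s k : ℕ) (h : s + 2 * k ≤ e + 1) : M P e (U P s (2 * k)) := by
  induction k with
  | zero => exact ⟨[], by simp, rfl⟩
  | succ k ih =>
    rw [show 2 * (k + 1) = 2 * k + 1 + 1 by ring, U, U, List.append_assoc]
    exact M_app P (ih (by omega)) (M_om P (i := s + 2 * k) (by omega))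

lemma left1 (e l : ℕ) (h : P.n + l ≤ e + 1) : ∃ u, M P e u ∧ x P (P.n + l) = u ++ x P (l + P.b) :=
  ⟨_, M_U P e (l + P.a) (P.c + 1) (by have := P.hp; omega), x_rec P l⟩

lemma right1 (e l : ℕ) (h : P.n + l ≤ e) :
    ∃ v, M P e v ∧ x P (P.n + (l + 1)) = x P (l + 1 + P.a) ++ v := by
  have h1 := P.hp
  have h2 := P.hab
  obtain ⟨u, hu, e1⟩ := left1 P e l (by omega)
  refine ⟨U P (l + 1 + P.a + 1) (2 * P.c) ++ (u ++ om P (l + P.b)),
    M_app P (M_U P e _ _ (by omega)) (M_app P hu (M_om P (by omega))), ?_⟩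
  rw [x_rec, U_cons, U, show l + 1 + P.a + 1 + 2 * P.c = P.n + l by omega, e1, om,
    Nat.add_right_comm l 1 P.b]
  simp only [List.append_assoc]

lemma leftN (e s : ℕ) (h : 1 + s * P.q ≤ e + 1) : ∃ u, M P e u ∧ x P (1 + s * P.q) = u ++ x P 1 := by
  have h1 := P.hq
  have h2 := P.hab
  induction s with
  | zero => exact ⟨[], ⟨[], by simp, rfl⟩, by simp⟩
  | succ s ih =>
    rw [Nat.succ_mul] at h ⊢
    obtain ⟨u, hu, e1⟩ := ih (by omega)
    obtain ⟨v, hv, e2⟩ := left1 P e (P.a + s * P.q) (by omega)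
    refine ⟨v ++ u, M_app P hv hu, ?_⟩
    rw [show 1 + (s * P.q + P.q) = P.n + (P.a + s * P.q) by omega, e2,
      show P.a + s * P.q + P.b = 1 + s * P.q by omega, e1, List.append_assoc]

lemma rightN (e t : ℕ) (h : 2 + t * (2 * P.c + 2) ≤ e + 1) :
    ∃ v, M P e v ∧ x P (2 + t * (2 * P.c + 2)) = x P 2 ++ v := by
  have h1 := P.hp
  have h2 := P.hab
  induction t with
  | zero => exact ⟨[], ⟨[], by simp, rfl⟩, by simp⟩
  | succ t ih =>
    rw [Nat.succ_mul] at h ⊢
    obtain ⟨u, hu, e1⟩ := ih (by omega)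
    obtain ⟨v, hv, e2⟩ := right1 P e (P.b + t * (2 * P.c + 2)) (by omega)
    refine ⟨u ++ v, M_app P hu hv, ?_⟩
    rw [show 2 + (t * (2 * P.c + 2) + (2 * P.c + 2)) = P.n + (P.b + t * (2 * P.c + 2) + 1) by omega,
      e2, show P.b + t * (2 * P.c + 2) + 1 + P.a = 2 + t * (2 * P.c + 2) by omega, e1,
      List.append_assoc]

theorem upper : M P ((2 * P.c + 2) * P.q + 1) (om P ((2 * P.c + 2) * P.q + 1)) := by
  have h1 := P.hp
  have h2 := P.hab
  have h3 := P.hq
  have h4 : 0 < (2 * P.c + 2) * P.q := Nat.mul_pos (by omega) (by omega)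
  obtain ⟨u, hu, e1⟩ := leftN P ((2 * P.c + 2) * P.q + 1) (2 * P.c + 2) (by omega)
  obtain ⟨v, hv, e2⟩ := rightN P ((2 * P.c + 2) * P.q + 1) P.q (by rw [mul_comm P.q]; omega)
  rw [om, add_comm _ 1, e1, show 1 + (2 * P.c + 2) * P.q + 1 = 2 + P.q * (2 * P.c + 2) by ring, e2,
    List.append_assoc, ← List.append_assoc (x P 1)]
  rw [add_comm _ 1] at hu hv
  exact M_app P hu (M_app P (M_om P (i := 1) (by omega)) hv)

/-! ### lengths, first and last letters -/

lemma odd_x (K : ℕ) : (x P K).length % 2 = 1 := by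
  have h1 := P.hp
  have h2 := P.hab
  induction K using Nat.strong_induction_on with
  | _ K ih =>
    by_cases h : K < P.n
    · rw [x_lt P K h]; rfl
    obtain ⟨l, rfl⟩ : ∃ l, K = P.n + l := ⟨K - P.n, by omega⟩
    have hU : ∀ k, k ≤ 2 * P.c + 2 → (U P (l + P.a) k).length % 2 = k % 2 := by
      intro k hk
      induction k with
      | zero => rfl
      | succ k ihk =>
        have a1 := ihk (by omega)
        have a2 := ih (l + P.a + k) (by omega)
        rw [U, List.length_append]
        omega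
    have a1 := hU _ le_rfl
    have a2 := ih (l + P.b) (by omega)
    rw [x_rec, List.length_append]
    omega

lemma x_ne (K : ℕ) : x P K ≠ [] := fun h => by simpa [h] using odd_x P K

lemma even_om (k : ℕ) : (om P k).length % 2 = 0 := by
  have a1 := odd_x P k
  have a2 := odd_x P (k + 1)
  rw [om, List.length_append]
  omega

lemma hd_app {u : List ℕ} (v : List ℕ) (h : u ≠ []) : (u ++ v).head? = u.head? := by
  cases u with
  | nil => exact absurd rfl h
  | cons z u => rfl

lemma lt_app (u : List ℕ) {v : List ℕ} (h : v ≠ []) : (u ++ v).getLast? = v.getLast? :=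
  List.getLast?_append_of_ne_nil u h

lemma x_hd (j : ℕ) : (x P (P.a + j)).head? = some (P.a + j % (2 * P.c + 2)) := by
  have h1 := P.hp
  induction j using Nat.strong_induction_on with
  | _ j ih =>
    by_cases h : j < 2 * P.c + 2
    · rw [x_lt P _ (by omega), Nat.mod_eq_of_lt h]; rfl
    obtain ⟨l, rfl⟩ : ∃ l, j = 2 * P.c + 2 + l := ⟨j - (2 * P.c + 2), by omega⟩
    rw [show P.a + (2 * P.c + 2 + l) = P.n + l by omega, x_rec, U_cons, List.append_assoc,
      hd_app _ (x_ne P _), add_comm l, ih l (by omega), Nat.add_mod_left]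

lemma x_la (j : ℕ) : (x P (P.b + j)).getLast? = some (P.b + j % P.q) := by
  have h1 := P.hp
  have h2 := P.hab
  have h3 := P.hq
  induction j using Nat.strong_induction_on with
  | _ j ih =>
    by_cases h : j < P.q
    · rw [x_lt P _ (by omega), Nat.mod_eq_of_lt h]; rfl
    obtain ⟨l, rfl⟩ : ∃ l, j = P.q + l := ⟨j - P.q, by omega⟩
    rw [show P.b + (P.q + l) = P.n + l by omega, x_rec, lt_app _ (x_ne P _), add_comm l,
      ih l (by omega), Nat.add_mod_left]

/-! ### junctions -/

/-- the admissible surroundings of a point between `s` and `t` -/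
def J (N : ℕ) (s t : List ℕ) : Prop :=
  (∃ l ≤ N, s.getLast? = (x P l).getLast? ∧ t.head? = (x P (l + 1)).head?) ∨
    (List.range' P.a (2 * P.c + 2) <:+ s ∧ t.head? = some P.b)

def Good (N : ℕ) (u : List ℕ) : Prop := ∀ s t, u = s ++ t → s ≠ [] → t ≠ [] → J P N s t

lemma J_ext {N : ℕ} {s t : List ℕ} (s' t' : List ℕ) (hs : s ≠ []) (ht : t ≠ []) (h : J P N s t) :
    J P N (s' ++ s) (t ++ t') := by
  unfold J at h ⊢
  rw [hd_app _ ht, lt_app _ hs]
  exact h.imp id fun h => ⟨h.1.trans (List.suffix_append _ _), h.2⟩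

lemma Good_app {N : ℕ} {u v : List ℕ} (hu : Good P N u) (hv : Good P N v)
    (h : u ≠ [] → J P N u v) (hv0 : v ≠ []) : Good P N (u ++ v) := by
  intro s t e hs ht
  rcases List.append_eq_append_iff.1 e with ⟨w, rfl, rfl⟩ | ⟨w, rfl, rfl⟩
  · by_cases hw : w = []
    · subst hw
      rw [List.append_nil] at hs ⊢
      exact h hs
    · simpa using J_ext P u [] hw ht (hv w t rfl hw ht)
  · by_cases hw : w = []
    · subst hw
      rw [List.append_nil] at h
      exact h hs
    · simpa using J_ext P [] v hs hw (hu s w rfl hs hw)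

lemma Good_x (N K : ℕ) (hK : K ≤ N + 1) : Good P N (x P K) := by
  have h1 := P.hp
  have h2 := P.hab
  have h3 := P.hq
  induction K using Nat.strong_induction_on with
  | _ K ih =>
    by_cases h : K < P.n
    · rw [x_lt P K h]
      intro s t e hs ht
      have a1 := congrArg List.length e
      have a2 := List.length_pos_of_ne_nil hs
      have a3 := List.length_pos_of_ne_nil ht
      rw [List.length_append, List.length_singleton] at a1
      omega
    obtain ⟨l, rfl⟩ : ∃ l, K = P.n + l := ⟨K - P.n, by omega⟩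
    have hU : ∀ k, k ≤ 2 * P.c + 2 → Good P N (U P (l + P.a) k) := by
      intro k hk
      induction k with
      | zero => exact fun s t e hs _ => absurd (List.append_eq_nil_iff.1 e.symm).1 hs
      | succ k ihk =>
        refine Good_app P (ihk (by omega)) (ih _ (by omega) (by omega)) (fun h0 => ?_) (x_ne P _)
        cases k with
        | zero => exact absurd rfl h0
        | succ k => exact Or.inl ⟨l + P.a + k, by omega, lt_app _ (x_ne P _), rfl⟩
    rw [x_rec]
    refine Good_app P (hU _ le_rfl) (ih _ (by omega) (by omega)) (fun _ => ?_) (x_ne P _)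
    cases l with
    | zero =>
      rw [zero_add, zero_add, U_range P _ _ (by omega), x_lt P _ (by omega)]
      exact Or.inr ⟨List.suffix_rfl, rfl⟩
    | succ l =>
      refine Or.inl ⟨l + P.b, by omega, ?_, by rw [Nat.add_right_comm]⟩
      rw [U, lt_app _ (x_ne P _), show l + 1 + P.a + (2 * P.c + 1) = P.n + l by omega, x_rec,
        lt_app _ (x_ne P _)]

lemma Good_om (N i : ℕ) (h : i ≤ N) : Good P N (om P i) :=
  Good_app P (Good_x P N _ (by omega)) (Good_x P N _ (by omega))
    (fun _ => Or.inl ⟨i, h, rfl, rfl⟩) (x_ne P _)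

lemma cover (L : List ℕ) (s t : List ℕ) (e : (L.map (om P)).flatten = s ++ t)
    (hs : s.length % 2 = 1) : ∃ i ∈ L, ∃ s1 s2 t1 t2, s = s1 ++ s2 ∧ t = t1 ++ t2 ∧
      om P i = s2 ++ t1 ∧ s2.length % 2 = 1 ∧ t1 ≠ [] := by
  induction L generalizing s with
  | nil =>
    have := (List.append_eq_nil_iff.1 e.symm).1
    simp [this] at hs
  | cons i L ih =>
    have h0 := even_om P i
    rw [List.map_cons, List.flatten_cons] at e
    rcases List.append_eq_append_iff.1 e with ⟨w, rfl, e1⟩ | ⟨w, e1, rfl⟩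
    · rw [List.length_append] at hs
      obtain ⟨j, hj, s1, s2, t1, t2, rfl, a2, a3⟩ := ih w e1 (by omega)
      exact ⟨j, List.mem_cons_of_mem _ hj, om P i ++ s1, s2, t1, t2, by simp, a2, a3⟩
    · refine ⟨i, List.mem_cons_self, [], s, w, _, rfl, rfl, e1, hs, ?_⟩
      rintro rfl
      rw [e1, List.append_nil] at h0
      omega

lemma desub (y s t : List ℕ) (e : G P y = s ++ 0 :: t) : ∃ y1 z y2 s' t', y = y1 ++ z :: y2 ∧
    z + 1 = P.n ∧ W P = s' ++ 0 :: t' ∧ s = G P y1 ++ s' ∧ t = t' ++ G P y2 := by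
  induction y generalizing s with
  | nil => simp [G] at e
  | cons z y ih =>
    have key : ∀ w, G P y = w ++ 0 :: t → ∃ y1 z' y2 s' t', z :: y = y1 ++ z' :: y2 ∧
        z' + 1 = P.n ∧ W P = s' ++ 0 :: t' ∧ g P z ++ w = G P y1 ++ s' ∧ t = t' ++ G P y2 := by
      intro w e1
      obtain ⟨y1, z', y2, s', t', rfl, a1, a2, rfl, a3⟩ := ih w e1
      exact ⟨z :: y1, z', y2, s', t', rfl, a1, a2, by rw [G_cons, List.append_assoc], a3⟩
    rw [G_cons] at e
    rcases List.append_eq_append_iff.1 e with ⟨w, rfl, e1⟩ | ⟨w, e1, e2⟩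
    · exact key w e1
    · cases w with
      | nil =>
        rw [List.append_nil] at e1
        simpa [e1] using key [] e2.symm
      | cons c w =>
        obtain ⟨rfl, rfl⟩ := List.cons.inj e2
        by_cases hz : z + 1 = P.n
        · rw [g, if_pos hz] at e1
          exact ⟨[], z, y, s, w, rfl, hz, e1, rfl, rfl⟩
        · rw [g, if_neg hz] at e1
          have : (0 : ℕ) ∈ [z + 1] := by rw [e1]; simp
          simp at this

/-! ### no formula of depth `p q` -/

lemma crt {p q l e : ℕ} (h : p = q + 1 ∨ q = p + 1) (hl : l < e) (h1 : l % p = e % p)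
    (h2 : l % q = e % q) : l + p * q ≤ e := by
  have hc : Nat.Coprime p q := by
    rcases h with rfl | rfl <;> simp
  have a1 := (Nat.modEq_iff_dvd' hl.le).1 h1
  have a2 := (Nat.modEq_iff_dvd' hl.le).1 h2
  have := Nat.le_of_dvd (by omega) (hc.mul_dvd_of_dvd_of_dvd a1 a2)
  omega

lemma lower_even (ha : P.a = 0) : ¬ M P ((2 * P.c + 2) * P.q) (om P ((2 * P.c + 2) * P.q)) := by
  have h1 := P.hp
  have h2 := P.hab
  have h3 := P.hq
  have hb : P.b = 1 := by omega
  have h4 : 0 < (2 * P.c + 2) * P.q := Nat.mul_pos (by omega) (by omega)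
  obtain ⟨e, he⟩ : ∃ e, (2 * P.c + 2) * P.q = e + 1 := ⟨(2 * P.c + 2) * P.q - 1, by omega⟩
  rw [he]
  rintro ⟨L, hL, e1⟩
  obtain ⟨i, hi, s1, s2, t1, t2, a1, a2, a3, a4, a5⟩ :=
    cover P L (x P (e + 1)) (x P (e + 1 + 1)) e1.symm (odd_x P _)
  have a6 : s2 ≠ [] := by
    rintro rfl
    simp at a4
  have a7 := J_ext P s1 t2 a6 a5 (Good_om P e i (by have := hL i hi; omega) s2 t1 a3 a6 a5)
  rw [← a1, ← a2] at a7
  rcases a7 with ⟨l, hl, b1, b2⟩ | ⟨⟨r, hr⟩, -⟩
  · have c1 := x_hd P (e + 1 + 1)
    have c2 := x_hd P (l + 1)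
    have c3 := x_la P e
    rw [ha, zero_add, zero_add] at c1 c2
    rw [c1, c2] at b2
    rw [hb, add_comm 1 e] at c3
    rw [c3] at b1
    cases l with
    | zero =>
      rw [x_lt P 0 (by omega)] at b1
      simp at b1
    | succ l =>
      have c4 := x_la P l
      rw [hb, add_comm 1 l] at c4
      rw [c4] at b1
      have c5 : l % P.q = e % P.q := by
        have := Option.some.inj b1
        omega
      have c6 : l % (2 * P.c + 2) = e % (2 * P.c + 2) :=
        Nat.ModEq.add_right_cancel' 2 (Option.some.inj b2).symm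
      have := crt (Or.inl (by omega)) (by omega : l < e) c6 c5
      omega
  · rw [ha, List.range'_succ, x_succ] at hr
    obtain ⟨y1, z, y2, s', t', -, -, c1, -, c2⟩ := desub P _ _ _ hr.symm
    rw [W, ha, hb, List.range'_succ] at c1
    cases s' with
    | nil =>
      have d1 := congrArg List.length c1
      have d2 := congrArg List.length c2
      simp at d1 d2
      omega
    | cons c s' =>
      have d1 := (List.cons.inj c1).2
      have : (0 : ℕ) ∈ List.range' (0 + 1) (2 * P.c + 1) ++ [1] := by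
        change _ = s' ++ 0 :: t' at d1
        rw [show List.range' (0 + 1) (2 * P.c + 1) ++ [1] = s' ++ 0 :: t' from d1]
        simp
      simp at this

lemma pre_odd (ha : P.a = 1) (j : ℕ) : ∃ r, x P (P.n + j * (2 * P.c + 2)) = W P ++ r := by
  have h1 := P.hp
  induction j with
  | zero => exact ⟨[], by simp [x_n]⟩
  | succ j ih =>
    obtain ⟨r, hr⟩ := ih
    rw [x_rec, U_cons, Nat.succ_mul,
      show j * (2 * P.c + 2) + (2 * P.c + 2) + P.a = P.n + j * (2 * P.c + 2) by omega, hr]
    exact ⟨_, by rw [List.append_assoc, List.append_assoc]⟩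

lemma lower_odd (ha : P.a = 1) : ¬ M P ((2 * P.c + 2) * P.q) (om P ((2 * P.c + 2) * P.q)) := by
  have h1 := P.hp
  have h2 := P.hab
  have h3 := P.hq
  have hb : P.b = 0 := by omega
  have hq : P.q = 2 * P.c + 2 + 1 := by omega
  rintro ⟨L, hL, e1⟩
  obtain ⟨r, hr⟩ := pre_odd P ha (2 * P.c + 2)
  rw [show P.n + (2 * P.c + 2) * (2 * P.c + 2) = (2 * P.c + 2) * P.q + 1 by
    rw [hq, mul_add _ _ 1]; omega] at hr
  have h5 : (x P ((2 * P.c + 2) * P.q)).getLast? = some 0 := by
    have := x_la P ((2 * P.c + 2) * P.q)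
    rwa [hb, zero_add, zero_add, Nat.mul_mod_left] at this
  have h6 := odd_x P ((2 * P.c + 2) * P.q)
  obtain ⟨e, he⟩ : ∃ e, (2 * P.c + 2) * P.q = e := ⟨_, rfl⟩
  rw [he] at hL e1 hr h5 h6
  rw [om, hr, W, ha, hb, List.append_assoc, ← List.append_assoc] at e1
  obtain ⟨i, hi, s1, s2, t1, t2, a1, a2, a3, a4, a5⟩ := cover P L _ _ e1.symm (by
    rw [List.length_append, List.length_range']
    omega)
  obtain ⟨z, t1, rfl⟩ := List.exists_cons_of_ne_nil a5
  obtain rfl : 0 = z := (List.cons.inj a2).1
  cases i with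
  | zero =>
    rw [om, x_lt P 0 (by omega), x_lt P _ (by omega)] at a3
    rcases s2 with _ | ⟨c, _ | ⟨c', s2⟩⟩ <;> simp at a3 a4
  | succ i =>
    rw [om_succ] at a3
    obtain ⟨y1, z, y2, s', t', b1, b2, b3, b4, -⟩ := desub P _ _ _ a3
    rw [W, ha, hb] at b3
    have c1 : s' = List.range' 1 (2 * P.c + 2) := by
      rcases t'.eq_nil_or_concat' with rfl | ⟨t'', w, rfl⟩
      · exact (List.append_inj_left' b3 rfl).symm
      · rw [← List.cons_append, ← List.append_assoc] at b3
        have : (0 : ℕ) ∈ List.range' 1 (2 * P.c + 2) := by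
          rw [List.append_inj_left' b3 rfl]
          simp
        simp at this
    rw [b4, c1, ← List.append_assoc] at a1
    have c2 := List.append_cancel_right a1
    rw [b4, c1, List.length_append, List.length_range'] at a4
    rcases y1.eq_nil_or_concat' with rfl | ⟨y0, w, rfl⟩
    · simp [G] at a4
    have c3 : w + 1 = P.n := by
      by_contra hw
      rw [c2, G_app, G_cons, g, if_neg hw] at h5
      simp [G] at h5
    rcases Good_om P i i le_rfl _ _ b1 (by simp) (by simp) with ⟨l, hl, d1, d2⟩ | ⟨-, d2⟩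
    · have f1 := x_hd P l
      have f2 := x_la P l
      rw [ha, add_comm 1 l] at f1
      rw [hb, zero_add, zero_add] at f2
      rw [f2, List.getLast?_concat] at d1
      rw [f1, List.head?_cons] at d2
      have f3 := Option.some.inj d1
      have f4 := Option.some.inj d2
      have f5 : 0 % P.q = (l + 1) % P.q := by
        rw [← Nat.mod_add_mod, ← f3, c3, h3, hb, add_zero, Nat.mod_self, Nat.zero_mod]
      have f6 : 0 % (2 * P.c + 2) = (l + 1) % (2 * P.c + 2) := by
        rw [← Nat.mod_add_mod, show l % (2 * P.c + 2) + 1 = 2 * P.c + 2 by omega, Nat.mod_self,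
          Nat.zero_mod]
      have := crt (Or.inr hq) (Nat.succ_pos l) f6 f5
      have := hL _ hi
      omega
    · have := Option.some.inj d2
      omega

theorem lower : ¬ M P ((2 * P.c + 2) * P.q) (om P ((2 * P.c + 2) * P.q)) := by
  have h2 := P.hab
  rcases (by omega : P.a = 0 ∨ P.a = 1) with h | h
  exacts [lower_even P h, lower_odd P h]

/-! ### injectivity and primitivity -/

lemma inj_hd (f : ℕ → List ℕ) (k : ℕ → ℕ) (hk : Function.Injective k)
    (hf : ∀ i, (f i).head? = some (k i)) (u v : List ℕ) (e : u.flatMap f = v.flatMap f) : u = v := by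
  have h0 : ∀ i, f i ≠ [] := fun i h => by simpa [h] using hf i
  induction u generalizing v with
  | nil =>
    cases v with
    | nil => rfl
    | cons z v => exact absurd (List.append_eq_nil_iff.1 e.symm).1 (h0 z)
  | cons y u ih =>
    cases v with
    | nil => exact absurd (List.append_eq_nil_iff.1 e).1 (h0 y)
    | cons z v =>
      rw [List.flatMap_cons, List.flatMap_cons] at e
      have a1 := congrArg List.head? e
      rw [hd_app _ (h0 y), hd_app _ (h0 z), hf, hf] at a1
      obtain rfl := hk (Option.some.inj a1)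
      rw [ih v (List.append_cancel_left e)]

lemma G_inj : Function.Injective (G P) := by
  have h2 := P.hab
  have hk : Function.Injective fun i => if i + 1 = P.n then 0 else i + 1 := by
    intro i j h
    dsimp only at h
    split_ifs at h <;> omega
  intro u v e
  rcases (by omega : P.a = 0 ∨ P.b = 0) with h | h
  · refine inj_hd (g P) _ hk (fun i => ?_) u v e
    unfold g W
    split_ifs
    · rw [h, List.range'_succ]; rfl
    · rfl
  · refine List.reverse_injective (inj_hd (List.reverse ∘ g P) _ hk (fun i => ?_) _ _ ?_)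
    · unfold g W
      dsimp only [Function.comp]
      split_ifs
      · simp [h]
      · rfl
    · rw [← List.reverse_flatMap, ← List.reverse_flatMap]
      exact congrArg List.reverse e

lemma all_mem (l j : ℕ) (hj : j < P.n) : j ∈ x P (P.n + l) := by
  have h1 := P.hp
  have h2 := P.hab
  induction l with
  | zero =>
    rw [add_zero, x_n, W, List.mem_append, List.mem_range'_1, List.mem_singleton]
    omega
  | succ l ih =>
    rw [x_rec, U, show l + 1 + P.a + (2 * P.c + 1) = P.n + l by omega]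
    simp [ih]

lemma g_lt (i j : ℕ) (hi : i < P.n) (hj : j ∈ g P i) : j < P.n := by
  have h1 := P.hp
  have h2 := P.hab
  unfold g W at hj
  split_ifs at hj
  · rw [List.mem_append, List.mem_range'_1, List.mem_singleton] at hj
    omega
  · rw [List.mem_singleton] at hj
    omega

lemma iter_om (k i : ℕ) : (G P)^[k] (om P i) = om P (k + i) := by
  induction k with
  | zero => simp
  | succ k ih => rw [Function.iterate_succ_apply', ih, ← om_succ, Nat.add_right_comm]

lemma iter_flat (k : ℕ) (L : List ℕ) :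
    (G P)^[k] (L.map (om P)).flatten = (L.map fun i => om P (k + i)).flatten := by
  have h : ∀ u v, (G P)^[k] (u ++ v) = (G P)^[k] u ++ (G P)^[k] v := by
    induction k with
    | zero => simp
    | succ k ih => intro u v; rw [Function.iterate_succ_apply, G_app, ih]; rfl
  induction L with
  | nil => exact Function.iterate_fixed rfl k
  | cons i L ih => rw [List.map_cons, List.flatten_cons, h, ih, iter_om]; rfl

/-- a formula of depth at most `p q + 1` -/
theorem formula : ∃ L : List ℕ, L ≠ [] ∧ (∀ i ∈ L, 0 < i ∧ i ≤ (2 * P.c + 2) * P.q + 1) ∧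
    ∀ m, (2 * P.c + 2) * P.q + 1 ≤ m → om P m = (L.map fun i => om P (m - i)).flatten := by
  obtain ⟨L, hL, e⟩ := upper P
  generalize (2 * P.c + 2) * P.q + 1 = d at *
  refine ⟨L.map fun i => d - i, ?_, ?_, fun m hm => ?_⟩
  · intro h
    rw [List.map_eq_nil_iff.1 h] at e
    exact x_ne P _ (List.append_eq_nil_iff.1 e).1
  · intro i hi
    obtain ⟨j, hj, rfl⟩ := List.mem_map.1 hi
    have := hL j hj
    omega
  · obtain ⟨k, rfl⟩ : ∃ k, m = k + d := ⟨m - d, by omega⟩
    rw [← iter_om, e, iter_flat, List.map_map]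
    refine congrArg List.flatten (List.map_congr_left fun i hi => ?_)
    have := hL i hi
    rw [Function.comp, show k + d - (d - i) = k + i by omega]

/-- no formula of depth at most `p q` -/
theorem no_formula (L : List ℕ) (N : ℕ) (hL : ∀ i ∈ L, 0 < i ∧ i ≤ (2 * P.c + 2) * P.q)
    (h : ∀ m, N ≤ m → om P m = (L.map fun i => om P (m - i)).flatten) : False := by
  refine lower P ?_
  generalize (2 * P.c + 2) * P.q = e at *
  refine ⟨L.map fun i => e - i, fun i hi => ?_, (G_inj P).iterate N ?_⟩
  · obtain ⟨j, hj, rfl⟩ := List.mem_map.1 hi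
    have := hL j hj
    omega
  · rw [iter_om, iter_flat, h _ (Nat.le_add_right _ _), List.map_map]
    refine congrArg List.flatten (List.map_congr_left fun i hi => ?_)
    have := hL i hi
    rw [Function.comp, show N + e - i = N + (e - i) by omega]

end Pool.Agent.MP_9c356a_lc.Quad
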