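import Mathlib

set_option autoImplicit false

namespace Pool.Agent.Results.MP_9c356a_lc.TernaryDepthSeven

/-- The morphism a ↦ b, b ↦ c, c ↦ bca, with a = 0, b = 1, c = 2. -/
def ht : Fin 3 → List (Fin 3) := ![[1], [2], [1, 2, 0]]

/-- Its extension to words. -/
def psi (u : List (Fin 3)) : List (Fin 3) := u.flatMap ht

theorem psi_rev (u v : List (Fin 3)) (h : psi u.reverse = psi v.reverse) : u = v := by
  induction u generalizing v with
  | nil =>
    cases v with
    | nil => rfl
    | cons y v => fin_cases y <;> simp [psi, ht] at h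
  | cons x u ih =>
    cases v with
    | nil => fin_cases x <;> simp [psi, ht] at h
    | cons y v =>
      have h2 := congrArg List.reverse h
      simp only [psi, List.reverse_cons, List.flatMap_append, List.flatMap_cons, List.flatMap_nil,
        List.append_nil, List.reverse_append] at h2
      fin_cases x <;> fin_cases y <;> simp [ht] at h2 <;> rw [ih v h2]

theorem psi_inj : Function.Injective psi := fun u v h =>
  List.reverse_injective (psi_rev u.reverse v.reverse (by simpa using h))

theorem iter_flatten (k : ℕ) (Ls : List (List (Fin 3))) :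
    psi^[k] Ls.flatten = (Ls.map psi^[k]).flatten := by
  induction k generalizing Ls with
  | zero => simp
  | succ k ih =>
    have h : psi Ls.flatten = (Ls.map psi).flatten := by
      induction Ls with
      | nil => rfl
      | cons x Ls h => simp only [List.flatten_cons, List.map_cons, ← h, psi, List.flatMap_append]
    rw [Function.iterate_succ_apply, h, ih, List.map_map, Function.iterate_succ]

theorem shift (w : List (Fin 3)) (L : List ℕ) (d k : ℕ) (hL : ∀ i ∈ L, i ≤ d) :
    (L.map fun i => psi^[k + d - i] w).flatten = psi^[k] (L.map fun i => psi^[d - i] w).flatten := by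
  rw [iter_flatten, List.map_map]
  refine congrArg List.flatten (List.map_congr_left fun i hi => ?_)
  have := hL i hi
  rw [Function.comp, ← Function.iterate_add_apply, show k + d - i = k + (d - i) by omega]

/-- A search for factorisations. -/
def fac (ws : List (List (Fin 3))) : ℕ → List (Fin 3) → Bool
  | 0, t => t.isEmpty
  | k + 1, t => t.isEmpty || ws.any fun u => u.isPrefixOf t && fac ws k (t.drop u.length)

theorem fac_true (ws Ls : List (List (Fin 3))) (h : ∀ u ∈ Ls, u ∈ ws ∧ u ≠ []) (k : ℕ)
    (hk : Ls.flatten.length ≤ k) : fac ws k Ls.flatten = true := by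
  induction Ls generalizing k with
  | nil => cases k <;> simp [fac]
  | cons u Ls ih =>
    have hu := h u (by simp)
    have hl := List.length_pos_of_ne_nil hu.2
    rw [List.flatten_cons, List.length_append] at hk
    obtain ⟨k, rfl⟩ : ∃ j, k = j + 1 := ⟨k - 1, by omega⟩
    rw [fac, Bool.or_eq_true, List.any_eq_true]
    refine Or.inr ⟨u, hu.1, ?_⟩
    rw [List.flatten_cons, List.drop_left, ih (fun v hv => h v (by simp [hv])) k (by omega)]
    simp

theorem result : ∃ (h : Fin 3 → List (Fin 3)) (w : List (Fin 3)),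
    (∃ (L : List ℕ) (N : ℕ), L ≠ [] ∧ (∀ i ∈ L, 0 < i ∧ i ≤ 7 ∧ i ≤ N) ∧ ∀ m, N ≤ m →
      (fun u : List (Fin 3) => u.flatMap h)^[m] w =
        (L.map fun i => (fun u : List (Fin 3) => u.flatMap h)^[m - i] w).flatten) ∧
    ¬ ∃ (L : List ℕ) (N : ℕ), (∀ i ∈ L, 0 < i ∧ i ≤ Nat.factorial 3) ∧ ∀ m, N ≤ m →
      (fun u : List (Fin 3) => u.flatMap h)^[m] w =
        (L.map fun i => (fun u : List (Fin 3) => u.flatMap h)^[m - i] w).flatten := by
  refine ⟨ht, [0, 1], ⟨[2, 5, 6, 6, 7, 4, 5, 2, 3], 7, by simp, by decide, fun m hm => ?_⟩, ?_⟩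
  · obtain ⟨k, rfl⟩ := Nat.exists_eq_add_of_le' hm
    refine Eq.trans ?_ (shift [0, 1] _ 7 k (by decide)).symm
    rw [Function.iterate_add_apply]
    exact congrArg _ (by decide)
  · rintro ⟨L, N, hL, hm⟩
    have h6 : ∀ i ∈ L, i ≤ 6 := fun i hi => (hL i hi).2
    have h1 := (hm (N + 6) (by omega)).trans (shift [0, 1] L 6 N h6)
    rw [Function.iterate_add_apply] at h1
    have h2 : psi^[6] [0, 1] = _ := psi_inj.iterate N h1
    have h3 := fac_true ((List.range 6).map fun j => psi^[j] [0, 1])
      (L.map fun i => psi^[6 - i] [0, 1]) (fun u hu => by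
        obtain ⟨i, hi, rfl⟩ := List.mem_map.1 hu
        have a1 := (hL i hi).1
        have a2 := h6 i hi
        interval_cases i <;> decide) 48 (by rw [← h2]; decide)
    rw [← h2] at h3
    revert h3
    decide

end Pool.Agent.Results.MP_9c356a_lc.TernaryDepthSeven
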